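import Mathlib

/-!
# MP_42f98c_gt: exactly the uncountable cubes carry an involution without invariant dense Sigma-subset

For a set `I` the Cantor cube `{0,1}^I` has a homeomorphism `h` with `h ∘ h = id` such that no dense
`Σ`-subset of the cube is mapped into itself by `h` if and only if `I` is uncountable. So the
smallest weight of a counterexample to the question is `ℵ₁`.
-/

open Set Topology Filter

namespace Pool.Agent.Results.MP_42f98c_gt.UncountableCubes

universe u v

/-- `Σ(Γ)`: the points of `ℝ^Γ` with countable support. -/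
def SigmaProduct (Γ : Type v) : Set (Γ → ℝ) := {x | {γ | x γ ≠ 0}.Countable}

/-- `A` is a `Σ`-subset of the space `K`: there are a set `Γ` and a homeomorphic embedding
`j : K → ℝ^Γ` with `A = j⁻¹(Σ(Γ))`. -/
def IsSigmaSubset {K : Type u} [TopologicalSpace K] (A : Set K) : Prop :=
  ∃ (Γ : Type v) (j : K → Γ → ℝ), IsEmbedding j ∧ A = j ⁻¹' SigmaProduct Γ

/-- `K` is a Valdivia compact space: compact Hausdorff with a dense `Σ`-subset. -/
def IsValdiviaCompact (K : Type u) [TopologicalSpace K] : Prop :=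
  CompactSpace K ∧ T2Space K ∧ ∃ A : Set K, Dense A ∧ IsSigmaSubset.{u, u} A

/-- A compact abelian group of automorphisms of `K`: a commutative group `G` of
self-homeomorphisms with a compact Hausdorff group topology `τ` for which the evaluation map
`G × K → K` is continuous. -/
structure IsCompactAbelianAutGroup {K : Type u} [TopologicalSpace K] (G : Subgroup (K ≃ₜ K))
    (τ : TopologicalSpace G) : Prop where
  comm : ∀ g ∈ G, ∀ g' ∈ G, g * g' = g' * g
  compact : @CompactSpace G τ
  hausdorff : @T2Space G τ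
  topGroup : @IsTopologicalGroup G τ _
  continuous_eval : Continuous (fun p : G × K => (p.1 : K ≃ₜ K) p.2)

/-! ### The index set and the involution -/

/-- Index set of the cube: `T` (a well-ordered set of type `ω₁`), two further copies and a rest. -/
abbrev Idx (T J : Type u) : Type u := (T ⊕ (T ⊕ (T × ℕ))) ⊕ J

/-- The cube. -/
abbrev Cube (T J : Type u) : Type u := Idx T J → Bool

variable {T J : Type u}

/-- coordinate `t` -/
abbrev cT (J : Type u) (t : T) : Idx T J := Sum.inl (Sum.inl t)
/-- coordinate `i_δ` -/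
abbrev cI (J : Type u) (d : T) : Idx T J := Sum.inl (Sum.inr (Sum.inl d))
/-- coordinate `v_δ(n)` -/
abbrev cV (J : Type u) (d : T) (n : ℕ) : Idx T J := Sum.inl (Sum.inr (Sum.inr (d, n)))

/-- `az x e n` is true iff `x (e j) = false` for all `j < n`. -/
def az (x : Cube T J) (e : ℕ → T) : ℕ → Bool
  | 0 => true
  | n + 1 => az x e n && !(x (cT J (e n)))

/-- The control bit: whether the bit `v_δ(n)` is to be flipped; `L` is the ladder system. -/
def ctrl (L : T → ℕ → T) (x : Cube T J) (d : T) (n : ℕ) : Bool :=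
  (az x (L d) n && x (cT J (L d n))) && (xor (Nat.bodd n) (x (cI J d)))

/-- The controlled bit flip. -/
def hfun (L : T → ℕ → T) (x : Cube T J) : Cube T J
  | Sum.inl (Sum.inl t) => x (Sum.inl (Sum.inl t))
  | Sum.inl (Sum.inr (Sum.inl d)) => x (Sum.inl (Sum.inr (Sum.inl d)))
  | Sum.inl (Sum.inr (Sum.inr (d, n))) =>
      xor (x (Sum.inl (Sum.inr (Sum.inr (d, n))))) (ctrl L x d n)
  | Sum.inr j => x (Sum.inr j)

theorem az_congr {x y : Cube T J} {e : ℕ → T} {n : ℕ} (h : ∀ m, x (cT J (e m)) = y (cT J (e m))) :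
    az x e n = az y e n := by
  induction n with
  | zero => rfl
  | succ n ih => simp only [az, ih, h]

theorem ctrl_congr {L : T → ℕ → T} {x y : Cube T J} {d : T} {n : ℕ}
    (h : ∀ m, x (cT J (L d m)) = y (cT J (L d m)))
    (h' : x (cI J d) = y (cI J d)) : ctrl L x d n = ctrl L y d n := by
  simp only [ctrl, az_congr h, h, h']

theorem hfun_hfun (L : T → ℕ → T) (x : Cube T J) : hfun L (hfun L x) = x := by
  funext i
  rcases i with (t | d | ⟨d, n⟩) | j
  · rfl
  · rfl
  · change xor (xor (x (cV J d n)) (ctrl L x d n)) (ctrl L (hfun L x) d n) = x (cV J d n)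
    have : ctrl L (hfun L x) d n = ctrl L x d n := ctrl_congr (fun m => rfl) rfl
    rw [this]
    cases x (cV J d n) <;> cases ctrl L x d n <;> rfl
  · rfl

theorem continuous_az (e : ℕ → T) (n : ℕ) : Continuous (fun x : Cube T J => az x e n) := by
  induction n with
  | zero => exact continuous_const
  | succ n ih =>
    have h1 : Continuous (fun x : Cube T J => x (cT J (e n))) := continuous_apply _
    have h2 : Continuous (fun p : Bool × Bool => p.1 && !p.2) := continuous_of_discreteTopology
    exact h2.comp (ih.prodMk h1)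

theorem continuous_ctrl (L : T → ℕ → T) (d : T) (n : ℕ) :
    Continuous (fun x : Cube T J => ctrl L x d n) := by
  have h1 : Continuous (fun x : Cube T J => x (cT J (L d n))) := continuous_apply _
  have h2 : Continuous (fun x : Cube T J => x (cI J d)) := continuous_apply _
  have h3 : Continuous (fun p : Bool × Bool × Bool => (p.1 && p.2.1) && (xor (Nat.bodd n) p.2.2)) :=
    continuous_of_discreteTopology
  exact h3.comp ((continuous_az (L d) n).prodMk (h1.prodMk h2))

theorem continuous_hfun (L : T → ℕ → T) : Continuous (hfun L : Cube T J → Cube T J) := by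
  refine continuous_pi fun i => ?_
  rcases i with (t | d | ⟨d, n⟩) | j
  · exact continuous_apply _
  · exact continuous_apply _
  · have h1 : Continuous (fun x : Cube T J => x (cV J d n)) := continuous_apply _
    have h3 : Continuous (fun p : Bool × Bool => xor p.1 p.2) := continuous_of_discreteTopology
    exact h3.comp (h1.prodMk (continuous_ctrl L d n))
  · exact continuous_apply _

/-- The involution as a homeomorphism. -/
def hhom (J : Type u) (L : T → ℕ → T) : Cube T J ≃ₜ Cube T J where
  toFun := hfun L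
  invFun := hfun L
  left_inv := hfun_hfun L
  right_inv := hfun_hfun L
  continuous_toFun := continuous_hfun L
  continuous_invFun := continuous_hfun L

/-! ### Continuous functions depend on countably many coordinates -/

theorem isOpen_coord {I : Type u} (i : I) (b : Bool) : IsOpen {y : I → Bool | y i = b} :=
  (isOpen_discrete ({b} : Set Bool)).preimage (continuous_apply (A := fun _ : I => Bool) i)

theorem isClosed_coord {I : Type u} (i : I) (b : Bool) : IsClosed {y : I → Bool | y i = b} :=
  (isClosed_discrete ({b} : Set Bool)).preimage (continuous_apply (A := fun _ : I => Bool) i)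

theorem exists_finset_dep {I : Type u} (f : (I → Bool) → ℝ) (hf : Continuous f) (ε : ℝ)
    (hε : 0 < ε) : ∃ F : Finset I, ∀ x y : I → Bool, (∀ i ∈ F, x i = y i) → |f x - f y| < ε := by
  classical
  have key : ∀ x : I → Bool, ∃ F : Finset I, ∀ y : I → Bool, (∀ i ∈ F, y i = x i) →
      |f y - f x| < ε / 2 := by
    intro x
    have hopen : IsOpen (f ⁻¹' Metric.ball (f x) (ε / 2)) := Metric.isOpen_ball.preimage hf
    obtain ⟨F, u, hu, hsub⟩ := isOpen_pi_iff.1 hopen x (by
      simp only [mem_preimage]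
      exact Metric.mem_ball_self (by linarith))
    refine ⟨F, fun y hy => ?_⟩
    have : y ∈ f ⁻¹' Metric.ball (f x) (ε / 2) := by
      apply hsub
      intro i hi
      rw [hy i hi]
      exact (hu i hi).2
    simpa [Metric.mem_ball, Real.dist_eq] using this
  choose Fx hFx using key
  have hopen : ∀ x : I → Bool, IsOpen {y : I → Bool | ∀ i ∈ Fx x, y i = x i} := by
    intro x
    have : {y : I → Bool | ∀ i ∈ Fx x, y i = x i} = ⋂ i ∈ Fx x, {y | y i = x i} := by
      ext y; simp
    rw [this]
    exact isOpen_biInter_finset fun i _ => isOpen_coord i (x i)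
  obtain ⟨t, ht⟩ := isCompact_univ.elim_finite_subcover
    (fun x : I → Bool => {y : I → Bool | ∀ i ∈ Fx x, y i = x i}) hopen
    (fun x _ => mem_iUnion.2 ⟨x, fun i _ => rfl⟩)
  refine ⟨t.biUnion Fx, fun x y hxy => ?_⟩
  obtain ⟨z, hz⟩ := mem_iUnion.1 (ht (mem_univ x))
  obtain ⟨hzt, hxz⟩ := mem_iUnion.1 hz
  have h1 := hFx z x hxz
  have h2 := hFx z y (fun i hi => by
    rw [← hxy i (Finset.mem_biUnion.2 ⟨z, hzt, hi⟩)]
    exact hxz i hi)
  have := abs_sub_le (f x) (f z) (f y)
  rw [abs_sub_comm (f z) (f y)] at this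
  linarith

theorem exists_countable_dep {I : Type u} (f : (I → Bool) → ℝ) (hf : Continuous f) :
    ∃ S : Set I, S.Countable ∧ ∀ x y : I → Bool, (∀ i ∈ S, x i = y i) → f x = f y := by
  choose F hF using fun n : ℕ => exists_finset_dep f hf (1 / ((n : ℝ) + 1))
    (Nat.one_div_pos_of_nat)
  refine ⟨⋃ n, (F n : Set I), countable_iUnion fun n => (F n).countable_toSet, ?_⟩
  intro x y hxy
  by_contra hne
  have hpos : 0 < |f x - f y| := abs_pos.2 (sub_ne_zero.2 hne)
  obtain ⟨n, hn⟩ := exists_nat_one_div_lt hpos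
  have := hF n x y (fun i hi => hxy i (mem_iUnion.2 ⟨n, hi⟩))
  linarith

/-! ### The cube is Valdivia -/

theorem isValdivia_cube (I : Type u) : IsValdiviaCompact (I → Bool) := by
  classical
  refine ⟨inferInstance, inferInstance, {x | {i | x i = true}.Countable}, ?_, ?_⟩
  · rw [dense_iff_inter_open]
    intro U hU ⟨x, hx⟩
    obtain ⟨F, u, hu, hsub⟩ := isOpen_pi_iff.1 hU x hx
    refine ⟨fun i => if i ∈ F then x i else false, hsub ?_, ?_⟩
    · intro i hi
      have hi' : i ∈ F := hi
      simp only [hi', if_true]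
      exact (hu i hi').2
    · refine (F.countable_toSet).mono ?_
      intro i hi
      simp only [mem_ofPred_eq] at hi
      by_contra hiF
      have : i ∉ F := fun h => hiF (by exact_mod_cast h)
      simp [this] at hi
  · refine ⟨I, fun x i => if x i = true then 1 else 0, ?_, ?_⟩
    · have hc : Continuous (fun (x : I → Bool) (i : I) => (if x i = true then (1 : ℝ) else 0)) := by
        refine continuous_pi fun i => ?_
        have h3 : Continuous (fun b : Bool => (if b = true then (1 : ℝ) else 0)) :=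
          continuous_of_discreteTopology
        exact h3.comp (continuous_apply i)
      refine (hc.isClosedEmbedding ?_).isEmbedding
      intro x y hxy
      funext i
      have := congrFun hxy i
      simp only at this
      cases hx : x i <;> cases hy : y i <;> simp [hx, hy] at this ⊢
    · ext x
      simp only [mem_ofPred_eq, mem_preimage, SigmaProduct]
      have : {i | (if x i = true then (1 : ℝ) else 0) ≠ 0} = {i | x i = true} := by
        ext i; simp
      rw [this]

/-! ### The closing-off argument -/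

/-- Dependence set of a coordinate. -/
def dep (L : T → ℕ → T) : Idx T J → Set (Idx T J)
  | Sum.inl (Sum.inl _) => ∅
  | Sum.inl (Sum.inr (Sum.inl _)) => ∅
  | Sum.inl (Sum.inr (Sum.inr (d, _))) => insert (cI J d) (range (fun m => cT J (L d m)))
  | Sum.inr _ => ∅

theorem countable_dep (L : T → ℕ → T) (i : Idx T J) : (dep L i).Countable := by
  rcases i with (t | d | ⟨d, n⟩) | j
  · exact countable_empty
  · exact countable_empty
  · exact (countable_range _).insert _
  · exact countable_empty

/-- `hfun` at a coordinate only depends on the coordinate and its dependence set. -/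
theorem hfun_congr {L : T → ℕ → T} {x y : Cube T J} (i : Idx T J) (h : x i = y i)
    (h' : ∀ k ∈ dep L i, x k = y k) : hfun L x i = hfun L y i := by
  rcases i with (t | d | ⟨d, n⟩) | j
  · exact h
  · exact h
  · change xor (x (cV J d n)) (ctrl L x d n) = xor (y (cV J d n)) (ctrl L y d n)
    have h1 : ctrl L x d n = ctrl L y d n :=
      ctrl_congr (fun m => h' _ (mem_insert_of_mem _ ⟨m, rfl⟩)) (h' _ (mem_insert _ _))
    rw [h1]
    have h2 : x (cV J d n) = y (cV J d n) := h
    rw [h2]
  · exact h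

theorem exists_cluster {X : Type u} [TopologicalSpace X] {M : Set X} (hM : IsCompact M)
    (u : ℕ → X) (hu : ∀ k, u k ∈ M) :
    ∃ x ∈ M, ∀ C : Set X, IsClosed C → (∀ᶠ k in atTop, u k ∈ C) → x ∈ C := by
  obtain ⟨x, hxM, hx⟩ := hM (f := map u atTop) (by
    rw [le_principal_iff, mem_map]
    exact Eventually.of_forall hu)
  refine ⟨x, hxM, fun C hC hev => ?_⟩
  refine isClosed_iff_clusterPt.1 hC x (hx.mono ?_)
  rw [le_principal_iff]
  exact hev

/-- The special points. -/
noncomputable def Pt (J : Type u) (L : T → ℕ → T) (s : T) : Cube T J := by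
  classical
  exact fun i => match i with
    | Sum.inl (Sum.inl t) => decide (t = s)
    | Sum.inl (Sum.inr (Sum.inl d)) => if h : ∃ k, L d k = s then Nat.bodd (Nat.find h) else false
    | Sum.inl (Sum.inr (Sum.inr _)) => false
    | Sum.inr _ => false

theorem Pt_cT_self (L : T → ℕ → T) (s : T) : Pt J L s (cT J s) = true := by
  simp [Pt]

theorem Pt_cT_ne {L : T → ℕ → T} {s t : T} (h : t ≠ s) : Pt J L s (cT J t) = false := by
  simp [Pt, h]

theorem Pt_cI_none {L : T → ℕ → T} {s d : T} (h : ∀ k, L d k ≠ s) :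
    Pt J L s (cI J d) = false := by
  have : ¬ ∃ k, L d k = s := fun ⟨k, hk⟩ => h k hk
  simp [Pt, this]

theorem az_true_iff (x : Cube T J) (e : ℕ → T) (n : ℕ) :
    az x e n = true ↔ ∀ k < n, x (cT J (e k)) = false := by
  induction n with
  | zero => simp [az]
  | succ n ih =>
    simp only [az, Bool.and_eq_true, ih, Bool.not_eq_true']
    constructor
    · rintro ⟨h1, h2⟩ k hk
      rcases Nat.lt_succ_iff_lt_or_eq.1 hk with h | h
      · exact h1 k h
      · rw [h]; exact h2
    · intro h
      exact ⟨fun k hk => h k (Nat.lt_succ_of_lt hk), h n (Nat.lt_succ_self n)⟩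

theorem ctrl_Pt (L : T → ℕ → T) (s d : T) (n : ℕ) : ctrl L (Pt J L s) d n = false := by
  classical
  by_contra hcon
  have h : ctrl L (Pt J L s) d n = true := by simpa using hcon
  simp only [ctrl, Bool.and_eq_true] at h
  obtain ⟨⟨h1, h2⟩, h3⟩ := h
  rw [az_true_iff] at h1
  have hen : L d n = s := by
    by_contra hne
    rw [Pt_cT_ne hne] at h2
    exact Bool.false_ne_true h2
  have hex : ∃ k, L d k = s := ⟨n, hen⟩
  have hfind : Nat.find hex = n := by
    rw [Nat.find_eq_iff]
    refine ⟨hen, fun k hk hek => ?_⟩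
    have := h1 k hk
    rw [hek, Pt_cT_self] at this
    exact Bool.false_ne_true this.symm
  have h4 : Pt J L s (cI J d) = Nat.bodd n := by
    have : Pt J L s (cI J d) = Nat.bodd (Nat.find hex) := by
      simp only [Pt, hex, dif_pos]
    rw [this, hfind]
  rw [h4] at h3
  simp at h3

theorem hfun_Pt (L : T → ℕ → T) (s : T) : hfun L (Pt J L s) = Pt J L s := by
  funext i
  rcases i with (t | d | ⟨d, n⟩) | j
  · rfl
  · rfl
  · change xor (Pt J L s (cV J d n)) (ctrl L (Pt J L s) d n) = Pt J L s (cV J d n)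
    rw [ctrl_Pt]
    simp
  · rfl

/-- The label of a coordinate. -/
def lab : (T ⊕ (T ⊕ (T × ℕ))) → T
  | Sum.inl t => t
  | Sum.inr (Sum.inl d) => d
  | Sum.inr (Sum.inr (d, _)) => d

/-! ### Well-ordered sets of type `ω₁` -/

/-- A countable subset of `T` has a strict upper bound. -/
theorem exists_strict_bound [LinearOrder T] (hT : Uncountable T)
    (hc : ∀ t : T, (Iic t).Countable) {S : Set T} (hS : S.Countable) : ∃ t, ∀ s ∈ S, s < t := by
  by_contra hcon
  push Not at hcon
  have : (univ : Set T).Countable := by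
    refine (hS.biUnion fun s _ => hc s).mono ?_
    intro t _
    obtain ⟨s, hs, hst⟩ := hcon t
    exact mem_iUnion₂.2 ⟨s, hs, hst⟩
  exact not_countable_iff.2 hT (countable_univ_iff.1 this)

/-- A ladder system. -/
theorem exists_ladder [LinearOrder T] : ∃ L : T → ℕ → T, (∀ d n, L d n ≤ d) ∧
    ∀ d, (∃ f : ℕ → T, StrictMono f ∧ IsLUB (range f) d) →
      StrictMono (L d) ∧ IsLUB (range (L d)) d := by
  classical
  have h : ∀ d : T, ∃ e : ℕ → T, (∀ n, e n ≤ d) ∧
      ((∃ f : ℕ → T, StrictMono f ∧ IsLUB (range f) d) → StrictMono e ∧ IsLUB (range e) d) := by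
    intro d
    by_cases hd : ∃ f : ℕ → T, StrictMono f ∧ IsLUB (range f) d
    · obtain ⟨f, hf, hl⟩ := hd
      exact ⟨f, fun n => hl.1 ⟨n, rfl⟩, fun _ => ⟨hf, hl⟩⟩
    · exact ⟨fun _ => d, fun _ => le_rfl, fun h => absurd h hd⟩
  choose L hL1 hL2 using h
  exact ⟨L, hL1, hL2⟩

theorem no_invariant [LinearOrder T] [WellFoundedLT T] (hT : Uncountable T)
    (hc : ∀ t : T, (Iic t).Countable) {L : T → ℕ → T} (hL1 : ∀ d n, L d n ≤ d)
    (hL2 : ∀ d, (∃ f : ℕ → T, StrictMono f ∧ IsLUB (range f) d) →
      StrictMono (L d) ∧ IsLUB (range (L d)) d)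
    {Γ : Type v} (j : Cube T J → Γ → ℝ) (hj : IsEmbedding j)
    (hdense : Dense (j ⁻¹' SigmaProduct Γ))
    (hinv : hfun L '' (j ⁻¹' SigmaProduct Γ) ⊆ j ⁻¹' SigmaProduct Γ) : False := by
  classical
  set A : Set (Cube T J) := j ⁻¹' SigmaProduct Γ with hA
  have hTne : Nonempty T := by
    by_contra hne
    rw [not_nonempty_iff] at hne
    exact not_countable_iff.2 hT inferInstance
  -- choice of points of `A`
  have hch : ∀ F G : Finset (Idx T J), ∃ a : Cube T J, a ∈ A ∧ ∀ i ∈ F, a i = decide (i ∈ G) := by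
    intro F G
    have hopen : IsOpen {y : Cube T J | ∀ i ∈ F, y i = decide (i ∈ G)} := by
      have : {y : Cube T J | ∀ i ∈ F, y i = decide (i ∈ G)} =
          ⋂ i ∈ F, {y | y i = decide (i ∈ G)} := by
        ext y; simp
      rw [this]
      exact isOpen_biInter_finset fun i _ => isOpen_coord i _
    obtain ⟨a, ha1, ha2⟩ := hdense.inter_open_nonempty _ hopen
      ⟨fun i => decide (i ∈ G), fun i _ => rfl⟩
    exact ⟨a, ha2, ha1⟩
  choose ch hchA hchF using hch
  -- dependence sets of the coordinate functions of `j`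
  have hS : ∀ γ : Γ, ∃ S : Set (Idx T J), S.Countable ∧
      ∀ x y : Cube T J, (∀ i ∈ S, x i = y i) → j x γ = j y γ := fun γ =>
    exists_countable_dep (fun x => j x γ) ((continuous_apply γ).comp hj.continuous)
  choose S hScount hSdep using hS
  -- a new element
  have hnew : ∀ (I : Set (Idx T J)) (d : T), ∃ t : T, I.Countable →
      d < t ∧ ∀ i : T ⊕ (T ⊕ (T × ℕ)), Sum.inl i ∈ I → lab i < t := by
    intro I d
    by_cases hI : I.Countable
    · have hS' : (insert d (lab '' (Sum.inl ⁻¹' I : Set (T ⊕ (T ⊕ (T × ℕ)))))).Countable :=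
        ((hI.preimage_of_injOn Sum.inl_injective.injOn).image _).insert _
      obtain ⟨t, ht⟩ := exists_strict_bound hT hc hS'
      exact ⟨t, fun _ => ⟨ht d (mem_insert _ _), fun i hi =>
        ht _ (mem_insert_of_mem _ ⟨i, hi, rfl⟩)⟩⟩
    · exact ⟨d, fun h => absurd h hI⟩
  choose new hnew using hnew
  -- the step
  let step : Set (Idx T J) × Set (Cube T J) × Set Γ × T →
      Set (Idx T J) × Set (Cube T J) × Set Γ × T := fun p =>
    (((p.1 ∪ ⋃ γ ∈ p.2.2.1, S γ) ∪ ⋃ i ∈ p.1, dep L i) ∪ cT J '' Iic p.2.2.2,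
     (p.2.1 ∪ hfun L '' p.2.1) ∪
        {a | ∃ F G : Finset (Idx T J), ↑F ⊆ p.1 ∧ ↑G ⊆ p.1 ∧ ch F G = a},
     p.2.2.1 ∪ ⋃ a ∈ p.2.1, {γ | j a γ ≠ 0},
     new p.1 p.2.2.2)
  let P : ℕ → Set (Idx T J) × Set (Cube T J) × Set Γ × T := fun n =>
    step^[n] (∅, ∅, ∅, Classical.arbitrary T)
  have hP : ∀ n, P (n + 1) = step (P n) := fun n => Function.iterate_succ_apply' step n _
  -- countability
  have hcount : ∀ n, (P n).1.Countable ∧ (P n).2.1.Countable ∧ (P n).2.2.1.Countable ∧
      (P n).2.1 ⊆ A := by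
    intro n
    induction n with
    | zero => exact ⟨countable_empty, countable_empty, countable_empty, empty_subset _⟩
    | succ n ih =>
      obtain ⟨h1, h2, h3, h4⟩ := ih
      rw [hP n]
      refine ⟨?_, ?_, ?_, ?_⟩
      · exact ((h1.union (h3.biUnion fun γ _ => hScount γ)).union
          (h1.biUnion fun i _ => countable_dep L i)).union ((hc _).image _)
      · refine (h2.union (h2.image _)).union ?_
        have hfin : {F : Finset (Idx T J) | ↑F ⊆ (P n).1}.Countable := by
          refine (countable_ofPred_finite_subset h1).preimage_of_injOn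
            (f := fun F : Finset (Idx T J) => (F : Set (Idx T J)))
            Finset.coe_injective.injOn |>.mono ?_
          intro F hF
          exact ⟨F.finite_toSet, hF⟩
        refine ((hfin.prod hfin).image (fun q : Finset (Idx T J) × Finset (Idx T J) =>
          ch q.1 q.2)).mono ?_
        rintro a ⟨F, G, hF, hG, rfl⟩
        exact ⟨(F, G), ⟨hF, hG⟩, rfl⟩
      · refine h3.union (h2.biUnion fun a ha => ?_)
        exact h4 ha
      · refine union_subset (union_subset h4 ?_) ?_
        · exact (image_mono h4).trans hinv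
        · rintro a ⟨F, G, hF, hG, rfl⟩
          exact hchA F G
  have hI_mono : Monotone fun n => (P n).1 := by
    refine monotone_nat_of_le_succ fun n => ?_
    rw [hP n]
    exact fun i hi => Or.inl (Or.inl (Or.inl hi))
  -- the ordinals
  let dl : ℕ → T := fun n => (P n).2.2.2
  have hdl : ∀ n, dl n < dl (n + 1) ∧
      ∀ i : T ⊕ (T ⊕ (T × ℕ)), Sum.inl i ∈ (P n).1 → lab i < dl (n + 1) := by
    intro n
    have h : dl (n + 1) = new (P n).1 (P n).2.2.2 := by
      change (P (n + 1)).2.2.2 = _
      rw [hP n]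
    rw [h]
    exact hnew _ _ (hcount n).1
  have hdlm : StrictMono dl := strictMono_nat_of_lt_succ fun n => (hdl n).1
  obtain ⟨dw, hdw⟩ : ∃ dw, IsLUB (range dl) dw := by
    obtain ⟨t, ht⟩ := exists_strict_bound hT hc (countable_range dl)
    have hne : (upperBounds (range dl)).Nonempty := ⟨t, fun s hs => (ht s hs).le⟩
    exact ⟨wellFounded_lt.min _ hne, wellFounded_lt.min_mem _ hne,
      fun s hs => not_lt.1 (wellFounded_lt.not_lt_min _ hs)⟩
  obtain ⟨hem, hel⟩ := hL2 dw ⟨dl, hdlm, hdw⟩
  set e : ℕ → T := L dw with he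
  have he_lt : ∀ n, e n < dw := fun n => (hem (Nat.lt_succ_self n)).trans_le (hel.1 ⟨n + 1, rfl⟩)
  have he_dl : ∀ n, ∃ m, e n < dl m := by
    intro n
    by_contra hcon
    push Not at hcon
    have : dw ≤ e n := hdw.2 (by rintro _ ⟨m, rfl⟩; exact hcon m)
    exact absurd (he_lt n) (not_lt.2 this)
  have he_cof : ∀ t < dw, ∃ n, t < e n := by
    intro t ht
    by_contra hcon
    push Not at hcon
    have : dw ≤ t := hel.2 (by rintro _ ⟨m, rfl⟩; exact hcon m)
    exact absurd ht (not_lt.2 this)
  have he_inj : ∀ m n, m < n → e m ≠ e n := fun m n hmn => (hem hmn).ne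
  have hdepI : ∀ n, ∀ i ∈ (P n).1, dep L i ⊆ (P (n + 1)).1 := by
    intro n i hi k hk
    rw [hP n]
    exact Or.inl (Or.inr (mem_iUnion₂.2 ⟨i, hi, hk⟩))
  have hSI : ∀ n, ∀ γ ∈ (P n).2.2.1, S γ ⊆ (P (n + 1)).1 := by
    intro n γ hγ k hk
    rw [hP n]
    exact Or.inl (Or.inl (Or.inr (mem_iUnion₂.2 ⟨γ, hγ, hk⟩)))
  -- the limits
  set Iω : Set (Idx T J) := ⋃ n, (P n).1 with hIω
  set Aω : Set (Cube T J) := ⋃ n, (P n).2.1 with hAω
  set Gω : Set Γ := ⋃ n, (P n).2.2.1 with hGω
  set M : Set (Cube T J) := closure Aω with hM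
  have hMcomp : IsCompact M := isClosed_closure.isCompact
  have hdepω : ∀ i ∈ Iω, dep L i ⊆ Iω := by
    intro i hi
    obtain ⟨n, hn⟩ := mem_iUnion.1 hi
    exact (hdepI n i hn).trans (subset_iUnion (fun n => (P n).1) (n + 1))
  have hlabω : ∀ i : T ⊕ (T ⊕ (T × ℕ)), Sum.inl i ∈ Iω → lab i < dw := by
    intro i hi
    obtain ⟨n, hn⟩ := mem_iUnion.1 hi
    exact ((hdl n).2 i hn).trans_le (hdw.1 ⟨n + 1, rfl⟩)
  -- (F0)
  have F0 : ∀ x ∈ M, ∀ γ, γ ∉ Gω → j x γ = 0 := by
    intro x hx γ hγ
    have hcl : IsClosed {y : Cube T J | j y γ = 0} :=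
      isClosed_eq ((continuous_apply γ).comp hj.continuous) continuous_const
    refine closure_minimal ?_ hcl hx
    intro a ha
    obtain ⟨n, hn⟩ := mem_iUnion.1 ha
    by_contra hne
    apply hγ
    refine mem_iUnion.2 ⟨n + 1, ?_⟩
    rw [hP n]
    exact Or.inr (mem_iUnion₂.2 ⟨a, hn, hne⟩)
  -- (F1)
  have F1 : ∀ x : Cube T J, ∃ m ∈ M, ∀ i ∈ Iω, m i = x i := by
    intro x
    have hfip : (M ∩ ⋂ i : Iω, {y : Cube T J | y i = x i}).Nonempty := by
      refine hMcomp.inter_iInter_nonempty _ (fun i => isClosed_coord _ _) ?_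
      intro u
      -- a common stage
      have hstage : ∃ n, ∀ i ∈ u, (i : Idx T J) ∈ (P n).1 := by
        induction u using Finset.induction_on with
        | empty => exact ⟨0, fun i hi => absurd hi (Finset.notMem_empty i)⟩
        | insert i u _ ih =>
          obtain ⟨n, hn⟩ := ih
          obtain ⟨m, hm⟩ := mem_iUnion.1 i.2
          refine ⟨max n m, fun k hk => ?_⟩
          rcases Finset.mem_insert.1 hk with h | h
          · rw [h]; exact hI_mono (le_max_right n m) hm
          · exact hI_mono (le_max_left n m) (hn k h)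
      obtain ⟨n, hn⟩ := hstage
      let F : Finset (Idx T J) := u.image Subtype.val
      let G : Finset (Idx T J) := F.filter (fun i => x i = true)
      have hF : (F : Set (Idx T J)) ⊆ (P n).1 := by
        intro i hi
        obtain ⟨k, hk, rfl⟩ := Finset.mem_image.1 (Finset.mem_coe.1 hi)
        exact hn k hk
      have hG : (G : Set (Idx T J)) ⊆ (P n).1 := fun i hi =>
        hF (Finset.mem_coe.2 (Finset.mem_filter.1 (Finset.mem_coe.1 hi)).1)
      refine ⟨ch F G, subset_closure (mem_iUnion.2 ⟨n + 1, ?_⟩), ?_⟩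
      · rw [hP n]
        exact Or.inr ⟨F, G, hF, hG, rfl⟩
      · refine mem_iInter₂.2 fun i hi => ?_
        have hiF : (i : Idx T J) ∈ F := Finset.mem_image.2 ⟨i, hi, rfl⟩
        change ch F G i = x i
        rw [hchF F G i hiF]
        cases hxi : x i with
        | true => simp [G, hiF, hxi]
        | false => simp [G, hxi]
    obtain ⟨m, hmM, hm⟩ := hfip
    exact ⟨m, hmM, fun i hi => mem_iInter.1 hm ⟨i, hi⟩⟩
  -- (F2)
  have F2 : ∀ m ∈ M, ∀ m' ∈ M, (∀ i ∈ Iω, m i = m' i) → m = m' := by
    intro m hm m' hm' heq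
    apply hj.injective
    funext γ
    by_cases hγ : γ ∈ Gω
    · obtain ⟨n, hn⟩ := mem_iUnion.1 hγ
      exact hSdep γ m m' fun i hi => heq i (mem_iUnion.2 ⟨n + 1, hSI n γ hn hi⟩)
    · rw [F0 m hm γ hγ, F0 m' hm' γ hγ]
  -- (F3)
  have F3 : ∀ m ∈ M, hfun L m ∈ M := by
    intro m hm
    have h1 : hfun L m ∈ closure (hfun L '' Aω) :=
      image_closure_subset_closure_image (continuous_hfun L) ⟨m, hm, rfl⟩
    refine closure_mono ?_ h1
    rintro _ ⟨a, ha, rfl⟩
    obtain ⟨n, hn⟩ := mem_iUnion.1 ha
    refine mem_iUnion.2 ⟨n + 1, ?_⟩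
    rw [hP n]
    exact Or.inl (Or.inr ⟨a, hn, rfl⟩)
  -- lifts of the special points
  have hlift : ∀ n, ∃ m ∈ M, ∀ i ∈ Iω, m i = Pt J L (e n) i := fun n => F1 _
  choose m hmM hm using hlift
  have hfix : ∀ n, hfun L (m n) = m n := by
    intro n
    apply F2 _ (F3 _ (hmM n)) _ (hmM n)
    intro i hi
    rw [hfun_congr i (hm n i hi) (fun k hk => hm n k (hdepω i hi hk)), hfun_Pt, hm n i hi]
  have hηω : ∀ k, cT J (e k) ∈ Iω := by
    intro k
    obtain ⟨n, hn⟩ := he_dl k
    refine mem_iUnion.2 ⟨n + 1, ?_⟩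
    rw [hP n]
    exact Or.inr ⟨e k, hn.le, rfl⟩
  have hval : ∀ n, m n (cI J dw) = Nat.bodd n := by
    intro n
    have h1 : xor (m n (cV J dw n)) (ctrl L (m n) dw n) = m n (cV J dw n) :=
      congrFun (hfix n) (cV J dw n)
    have h2 : ctrl L (m n) dw n = false := by
      cases h3 : ctrl L (m n) dw n with
      | false => rfl
      | true =>
        rw [h3] at h1
        cases h4 : m n (cV J dw n) <;> rw [h4] at h1 <;> simp at h1
    have h5 : az (m n) (L dw) n = true := by
      rw [az_true_iff]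
      intro k hk
      rw [hm n _ (hηω k)]
      exact Pt_cT_ne (he_inj k n hk)
    have h6 : m n (cT J (L dw n)) = true := by
      rw [hm n _ (hηω n)]
      exact Pt_cT_self _ _
    simp only [ctrl, h5, h6, Bool.and_self, Bool.true_and] at h2
    cases h7 : m n (cI J dw) <;> cases h8 : Nat.bodd n <;> rw [h7, h8] at h2 <;> simp at h2 ⊢
  -- eventual values
  have hev : ∀ i ∈ Iω, ∃ N, ∀ n, N ≤ n → m n i = false := by
    intro i hi
    rcases i with i | k
    · obtain ⟨N, hN⟩ := he_cof _ (hlabω i hi)
      refine ⟨N, fun n hn => ?_⟩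
      have hlt : lab i < e n := hN.trans_le (hem.monotone hn)
      rw [hm n _ hi]
      rcases i with t | d | ⟨d, k⟩
      · exact Pt_cT_ne hlt.ne
      · exact Pt_cI_none fun k => ((hL1 d k).trans_lt hlt).ne
      · rfl
    · exact ⟨0, fun n _ => by rw [hm n _ hi]; rfl⟩
  obtain ⟨u, huM, hu⟩ := exists_cluster hMcomp (fun k => m (2 * k)) (fun k => hmM _)
  obtain ⟨w, hwM, hw⟩ := exists_cluster hMcomp (fun k => m (2 * k + 1)) (fun k => hmM _)
  have hu0 : ∀ i ∈ Iω, u i = false := by
    intro i hi
    obtain ⟨N, hN⟩ := hev i hi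
    exact hu _ (isClosed_coord i false) (eventually_atTop.2 ⟨N, fun k hk => hN _ (by omega)⟩)
  have hw0 : ∀ i ∈ Iω, w i = false := by
    intro i hi
    obtain ⟨N, hN⟩ := hev i hi
    exact hw _ (isClosed_coord i false) (eventually_atTop.2 ⟨N, fun k hk => hN _ (by omega)⟩)
  have huw : u = w := F2 u huM w hwM fun i hi => (hu0 i hi).trans (hw0 i hi).symm
  have hu1 : u (cI J dw) = false :=
    hu _ (isClosed_coord (cI J dw) false) (Eventually.of_forall fun k => by
      change m (2 * k) (cI J dw) = false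
      rw [hval]
      simp)
  have hw1 : w (cI J dw) = true :=
    hw _ (isClosed_coord (cI J dw) true) (Eventually.of_forall fun k => by
      change m (2 * k + 1) (cI J dw) = true
      rw [hval]
      simp)
  rw [huw, hw1] at hu1
  exact Bool.false_ne_true hu1.symm

/-! ### Transport to arbitrary index sets -/

/-- The image of a `Σ`-subset under a homeomorphism is a `Σ`-subset. -/
theorem IsSigmaSubset.image {K K' : Type u} [TopologicalSpace K] [TopologicalSpace K']
    (f : K ≃ₜ K') {A : Set K} (hA : IsSigmaSubset.{u, v} A) : IsSigmaSubset.{u, v} (f '' A) := by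
  obtain ⟨Γ, j, hj, rfl⟩ := hA
  refine ⟨Γ, j ∘ f.symm, hj.comp f.symm.isEmbedding, ?_⟩
  rw [f.image_eq_preimage_symm]
  rfl

theorem exists_involution (I : Type u) (hI : Uncountable I) :
    ∃ h : (I → Bool) ≃ₜ (I → Bool), (∀ x, h (h x) = x) ∧ h ≠ 1 ∧
      ¬ ∃ A : Set (I → Bool), Dense A ∧ IsSigmaSubset.{u, v} A ∧ h '' A ⊆ A := by
  classical
  -- a well-ordered set of type `ω₁`
  let T : Type u := (Cardinal.aleph 1 : Cardinal.{u}).ord.ToType
  have hTc : Cardinal.mk T = Cardinal.aleph 1 := Cardinal.mk_ord_toType _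
  have hT : Uncountable T := by
    rw [← Cardinal.aleph0_lt_mk_iff, hTc]
    exact Cardinal.aleph0_lt_aleph_one
  have hTne : Nonempty T := by
    by_contra hne
    rw [not_nonempty_iff] at hne
    exact not_countable_iff.2 hT inferInstance
  have hc : ∀ t : T, (Iic t).Countable := by
    intro t
    have h1 : (Iio t).Countable := by
      have h2 : Cardinal.mk (Iio t) < Cardinal.mk T :=
        Cardinal.mk_Iio_lt t (by rw [hTc]; exact (Ordinal.type_toType _).symm)
      rw [← Cardinal.le_aleph0_iff_set_countable, ← Order.lt_succ_iff, Cardinal.succ_aleph0]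
      exact h2.trans_eq hTc
    rw [← Iio_insert]
    exact h1.insert t
  obtain ⟨L, hL1, hL2⟩ := exists_ladder (T := T)
  have hIc : Cardinal.aleph 1 ≤ Cardinal.mk I := by
    rw [← Cardinal.succ_aleph0, Order.succ_le_iff]
    exact Cardinal.aleph0_lt_mk_iff.2 hI
  have hcard : Cardinal.mk I = Cardinal.mk (Idx T I) := by
    have h0 : (Cardinal.aleph0 : Cardinal.{u}) ≤ Cardinal.aleph 1 :=
      Cardinal.aleph0_lt_aleph_one.le
    have h2 : Cardinal.mk (T × ℕ) = Cardinal.aleph 1 := by
      rw [Cardinal.mk_prod, Cardinal.lift_uzero, hTc, Cardinal.mk_nat, Cardinal.lift_aleph0,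
        Cardinal.mul_aleph0_eq h0]
    have h1 : Cardinal.mk (T ⊕ (T ⊕ (T × ℕ))) = Cardinal.aleph 1 := by
      rw [Cardinal.mk_sum, Cardinal.mk_sum, h2, hTc]
      simp only [Cardinal.lift_id]
      rw [Cardinal.add_eq_self h0, Cardinal.add_eq_self h0]
    rw [Idx, Cardinal.mk_sum, h1, Cardinal.lift_id, Cardinal.lift_id]
    exact (Cardinal.add_eq_right (h0.trans hIc) hIc).symm
  obtain ⟨φ⟩ := Cardinal.eq.1 hcard
  let f : (I → Bool) ≃ₜ Cube T I := Homeomorph.piCongrLeft (Y := fun _ => Bool) φ
  have hcomp : ∀ x, (f.trans ((hhom I L).trans f.symm)) x = f.symm (hfun L (f x)) := fun _ => rfl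
  refine ⟨f.trans ((hhom I L).trans f.symm), fun x => ?_, fun h1 => ?_, ?_⟩
  · rw [hcomp, hcomp, f.apply_symm_apply, hfun_hfun, f.symm_apply_apply]
  · let d : T := Classical.arbitrary T
    have h2 := congrArg (fun g : (I → Bool) ≃ₜ (I → Bool) => f (g (f.symm fun _ => true))) h1
    have h3 : hfun L (fun _ => true : Cube T I) = fun _ => true := by
      have h4 : f ((f.trans ((hhom I L).trans f.symm)) (f.symm fun _ => true)) =
          hfun L (fun _ => true : Cube T I) := by
        rw [hcomp, f.apply_symm_apply, f.apply_symm_apply]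
      rw [← h4]
      refine h2.trans ?_
      exact f.apply_symm_apply _
    have h5 : hfun L (fun _ => true : Cube T I) (cV I d 0) = false := rfl
    rw [h3] at h5
    exact Bool.false_ne_true h5.symm
  · rintro ⟨A, hd, hA, hinv⟩
    have hB : IsSigmaSubset.{u, v} (f '' A) := hA.image f
    have hBd : Dense (f '' A) := f.surjective.denseRange.dense_image f.continuous hd
    have hBi : hfun L '' (f '' A) ⊆ f '' A := by
      rintro _ ⟨_, ⟨a, ha, rfl⟩, rfl⟩
      refine ⟨(f.trans ((hhom I L).trans f.symm)) a, hinv ⟨a, ha, rfl⟩, ?_⟩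
      rw [hcomp, f.apply_symm_apply]
    obtain ⟨Γ, j, hj, hj2⟩ := hB
    rw [hj2] at hBd hBi
    exact no_invariant hT hc hL1 hL2 j hj hBd hBi

/-- In a cube with countably many coordinates everything is a `Σ`-subset. -/
theorem isSigmaSubset_univ (I : Type u) [Countable I] :
    IsSigmaSubset.{u, v} (univ : Set (I → Bool)) := by
  classical
  obtain ⟨ψ, hψ⟩ := exists_injective_nat I
  refine ⟨ULift.{v} ℕ, fun x γ => if ∃ i, ψ i = γ.down ∧ x i = true then 1 else 0, ?_, ?_⟩
  · have hcont : Continuous (fun (x : I → Bool) (γ : ULift.{v} ℕ) =>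
        (if ∃ i, ψ i = γ.down ∧ x i = true then (1 : ℝ) else 0)) := by
      refine continuous_pi fun γ => ?_
      by_cases h : ∃ i, ψ i = γ.down
      · obtain ⟨i, hi⟩ := h
        have h1 : (fun x : I → Bool => if ∃ i, ψ i = γ.down ∧ x i = true then (1 : ℝ) else 0) =
            fun x : I → Bool => if x i = true then (1 : ℝ) else 0 := by
          funext x
          have h2 : (∃ i', ψ i' = γ.down ∧ x i' = true) ↔ x i = true := by
            constructor
            · rintro ⟨i', hi', hx⟩
              rw [← hψ (hi'.trans hi.symm)]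
              exact hx
            · exact fun hx => ⟨i, hi, hx⟩
          simp only [h2]
        rw [h1]
        have h3 : Continuous (fun b : Bool => (if b = true then (1 : ℝ) else 0)) :=
          continuous_of_discreteTopology
        exact h3.comp (continuous_apply i)
      · have h1 : (fun x : I → Bool => if ∃ i, ψ i = γ.down ∧ x i = true then (1 : ℝ) else 0) =
            fun _ => 0 := by
          funext x
          rw [if_neg]
          rintro ⟨i, hi, _⟩
          exact h ⟨i, hi⟩
        rw [h1]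
        exact continuous_const
    refine (hcont.isClosedEmbedding ?_).isEmbedding
    intro x y hxy
    funext i
    have h4 := congrFun hxy ⟨ψ i⟩
    have h5 : ∀ z : I → Bool, (∃ i', ψ i' = (⟨ψ i⟩ : ULift.{v} ℕ).down ∧ z i' = true) ↔
        z i = true := by
      intro z
      constructor
      · rintro ⟨i', hi', hz⟩
        rw [← hψ hi']
        exact hz
      · exact fun hz => ⟨i, rfl, hz⟩
    simp only [h5] at h4
    cases hx : x i <;> cases hy : y i <;> simp [hx, hy] at h4 ⊢
  · ext x
    simp only [mem_univ, mem_preimage, true_iff]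
    exact to_countable _

/-! ### The main theorem -/

/-- (1) There are a Valdivia compact space `K` (the Cantor cube `{0,1}^I` with `|I| = ℵ₁`) and a
compact abelian group `G` of automorphisms of `K`, with just two elements, such that no dense
`Σ`-subset of `K` is invariant under all elements of `G`.
(2) For every set `I`: the cube `{0,1}^I` has an involutive homeomorphism `h` such that no dense
`Σ`-subset of the cube is invariant under `h` if and only if `I` is uncountable. -/
theorem result :
    (∃ (I : Type) (G : Subgroup ((I → Bool) ≃ₜ (I → Bool))) (τ : TopologicalSpace G),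
      Cardinal.mk I = Cardinal.aleph 1 ∧ IsValdiviaCompact (I → Bool) ∧
      IsCompactAbelianAutGroup G τ ∧ Nat.card G = 2 ∧
      ¬ ∃ A : Set (I → Bool), Dense A ∧ IsSigmaSubset.{0, v} A ∧
        ∀ g ∈ G, (g : (I → Bool) → (I → Bool)) '' A ⊆ A) ∧
    ∀ I : Type u, (∃ h : (I → Bool) ≃ₜ (I → Bool), (∀ x, h (h x) = x) ∧
      ¬ ∃ A : Set (I → Bool), Dense A ∧ IsSigmaSubset.{u, v} A ∧ h '' A ⊆ A) ↔ Uncountable I := by
  classical
  refine ⟨?_, fun I => ⟨?_, fun hI => ?_⟩⟩
  · let I : Type := (Cardinal.aleph 1 : Cardinal.{0}).ord.ToType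
    have hIc : Cardinal.mk I = Cardinal.aleph 1 := Cardinal.mk_ord_toType _
    have hI : Uncountable I := by
      rw [← Cardinal.aleph0_lt_mk_iff, hIc]
      exact Cardinal.aleph0_lt_aleph_one
    obtain ⟨h, h1, h2, h3⟩ := exists_involution.{0, v} I hI
    have hcard : Nat.card (Subgroup.zpowers h) = 2 := by
      rw [Nat.card_zpowers]
      refine orderOf_eq_prime ?_ h2
      ext1 x
      rw [pow_two]
      exact h1 x
    have hfin : Finite (Subgroup.zpowers h) := Nat.finite_of_card_ne_zero (by omega)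
    refine ⟨I, Subgroup.zpowers h, ⊥, hIc, isValdivia_cube _, ?_, hcard, ?_⟩
    · let τ : TopologicalSpace (Subgroup.zpowers h) := ⊥
      have : DiscreteTopology (Subgroup.zpowers h) := ⟨rfl⟩
      refine ⟨?_, ?_, ?_, ?_, ?_⟩
      · rintro g ⟨a, rfl⟩ g' ⟨b, rfl⟩
        exact (Commute.refl h).zpow_zpow a b
      · exact Finite.compactSpace
      · infer_instance
      · infer_instance
      · exact continuous_prod_of_discrete_left.mpr fun g => (g : (I → Bool) ≃ₜ (I → Bool)).continuous
    · rintro ⟨A, hA1, hA2, hA3⟩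
      exact h3 ⟨A, hA1, hA2, hA3 h (Subgroup.mem_zpowers _)⟩
  · rintro ⟨h, _, h2⟩
    by_contra hI
    rw [not_uncountable_iff] at hI
    exact h2 ⟨univ, dense_univ, isSigmaSubset_univ I, subset_univ _⟩
  · obtain ⟨h, h1, _, h3⟩ := exists_involution.{u, v} I hI
    exact ⟨h, h1, h3⟩

end Pool.Agent.Results.MP_42f98c_gt.UncountableCubes
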